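import Pool.Agent.Helper70.BI.T.StT
import Pool.Agent.Helper70.BI.T.M_MUL
import Pool.Agent.Helper34.BI5.VK4

/-!
# Project BI, stage 6 (T), module ABS: the van Kampen argument for swept spheres
-/

set_option autoImplicit false

open scoped Topology unitInterval Manifold ContDiff ComplexConjugate
open Set Pool.Agent.Helper65.Barb Pool.Agent.Helper18.BI
open Pool.Agent.Helper18.FinR (sqr)
open Pool.Agent.Helper18.BI.R (S2)
open Pool.Agent.Helper34.S5 (Off Hom cl RelP Tub tpi vk)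

namespace Pool.Agent.Helper70.T

namespace ABS

/-! ### the parametrization of the sphere by the square -/

theorem sqr_cont : Continuous sqr := by
  unfold Pool.Agent.Helper18.FinR.sqr
  refine Continuous.prodMk (by fun_prop) ?_
  have : (fun t : Fin 2 → I =>
      (⟨-(2 * Real.sin (Real.pi * t 0) * Real.sin (Real.pi * t 1) * Real.cos (Real.pi * t 1)),
      2 * Real.sin (Real.pi * t 0) * Real.cos (Real.pi * t 0) * Real.sin (Real.pi * t 1) ^ 2⟩ :
        ℂ)) = fun t => Complex.equivRealProdCLM.symm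
      (-(2 * Real.sin (Real.pi * t 0) * Real.sin (Real.pi * t 1) * Real.cos (Real.pi * t 1)),
      2 * Real.sin (Real.pi * t 0) * Real.cos (Real.pi * t 0) * Real.sin (Real.pi * t 1) ^ 2) := by
    funext t
    apply Complex.ext
    · simp
    · simp
  rw [this]
  exact Complex.equivRealProdCLM.symm.continuous.comp (by fun_prop)

theorem sqr_S2 (t : Fin 2 → I) : sqr t ∈ S2 := by
  show nsq (sqr t) = 1
  unfold nsq Pool.Agent.Helper18.FinR.sqr
  simp only
  have h1 : Real.cos (Real.pi * t 0) ^ 2 = 1 - Real.sin (Real.pi * t 0) ^ 2 := Real.cos_sq' _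
  have h2 : Real.cos (Real.pi * t 1) ^ 2 = 1 - Real.sin (Real.pi * t 1) ^ 2 := Real.cos_sq' _
  generalize Real.sin (Real.pi * t 0) = a at *
  generalize Real.sin (Real.pi * t 1) = b at *
  linear_combination (4 * a ^ 2 * b ^ 4) * h1 + (4 * a ^ 2 * b ^ 2) * h2

theorem sqr_bd {t : Fin 2 → I} (ht : t ∈ Cube.boundary (Fin 2)) : sqr t = (1, 0) := by
  have hs : Real.sin (Real.pi * t 0) = 0 ∨ Real.sin (Real.pi * t 1) = 0 := by
    rcases mem_bd ht with h | h | h | h
    · left; rw [h, Icc.coe_zero, mul_zero, Real.sin_zero]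
    · left; rw [h, Icc.coe_one, mul_one, Real.sin_pi]
    · right; rw [h, Icc.coe_zero, mul_zero, Real.sin_zero]
    · right; rw [h, Icc.coe_one, mul_one, Real.sin_pi]
  unfold Pool.Agent.Helper18.FinR.sqr
  rcases hs with h | h
  · rw [h]
    refine Prod.ext (by simp) (Complex.ext (by simp) (by simp))
  · rw [h]
    refine Prod.ext (by simp) (Complex.ext (by simp) (by simp))

section
variable {X : Type} [TopologicalSpace X] {A : Act X}

/-- the swept sphere only depends on the values in `[0, 1]` -/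
theorem sph_congr (hPP : StPP) {γ γ' : ℝ → X} (h : ∀ v ∈ Icc (0 : ℝ) 1, γ v = γ' v) {m : R3}
    (hm : m ∈ S2) : A.sph γ m = A.sph γ' m := by
  unfold Act.sph
  rw [h _ (hPP.2.2.1 m hm).2.2]

/-- homotopies -/
theorem hcl_htpy (hPP : StPP) {x₀ : X} (Γ : I × ℝ → X)
    (hΓ : ContinuousOn Γ (univ ×ˢ Icc (0 : ℝ) 1)) (h00 : x₀ ∈ A.Fix) (h0 : ∀ u, Γ (u, 0) = x₀)
    (h1 : ∀ u, Γ (u, 1) ∈ A.Fix) {f g : GenLoop (Fin 2) X x₀}
    (hf : ∀ t, f t = A.sph (fun v => Γ (0, v)) (sqr t))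
    (hg : ∀ t, g t = A.sph (fun v => Γ (1, v)) (sqr t)) : hcl f = hcl g := by
  have hF0 : ∀ u, Γ (u, 0) ∈ A.Fix := fun u => by rw [h0 u]; exact h00
  have hc := hPP.2.2.2 X I A Γ hΓ hF0 h1
  refine hcl_eq_of (fun z => A.sph (fun v => Γ (z.1, v)) (sqr z.2)) ?_ (fun t => (hf t).symm)
    (fun t => (hg t).symm) ?_
  · exact hc.comp_continuous (continuous_fst.prodMk (sqr_cont.comp continuous_snd))
      fun z => ⟨mem_univ _, sqr_S2 _⟩
  · intro u t ht
    show A.sph (fun v => Γ (u, v)) (sqr t) = x₀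
    rw [sqr_bd ht, sph_base hPP (γ := fun v => Γ (u, v)) (hF0 u) (h1 u)]
    exact h0 u

variable {K : Set R4} {e : Off K → X}

/-- the swept sphere of a path -/
noncomputable def sgl (hPP : StPP) (A : Act X) (he : Continuous e) {y₀ y₁ : Off K}
    (h0 : e y₀ ∈ A.Fix) (h1 : e y₁ ∈ A.Fix) (p : Path y₀ y₁) : GenLoop (Fin 2) X (e y₀) :=
  ⟨⟨fun t => A.sph (fun v => e (p.extend v)) (sqr t), by
    have hγ : ContinuousOn (fun v => e (p.extend v)) (Icc (0 : ℝ) 1) :=
      (he.comp p.continuous_extend).continuousOn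
    exact (sph_cont (A := A) hPP hγ (by simpa using h0) (by simpa using h1)).comp_continuous sqr_cont
      sqr_S2⟩, by
    intro t ht
    show A.sph (fun v => e (p.extend v)) (sqr t) = e y₀
    rw [sqr_bd ht, sph_base hPP (γ := fun v => e (p.extend v)) (by simpa using h0)
      (by simpa using h1)]
    simp⟩

theorem sgl_apply (hPP : StPP) (he : Continuous e) {y₀ y₁ : Off K}
    (h0 : e y₀ ∈ A.Fix) (h1 : e y₁ ∈ A.Fix) (p : Path y₀ y₁) (t : Fin 2 → I) :
    sgl hPP A he h0 h1 p t = A.sph (fun v => e (p.extend v)) (sqr t) := rfl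

/-- (0) homotopic paths -/
theorem sgl_htpy (hPP : StPP) (he : Continuous e) {y₀ y₁ : Off K}
    (h0 : e y₀ ∈ A.Fix) (h1 : e y₁ ∈ A.Fix) {p p' : Path y₀ y₁} (h : cl p = cl p') :
    hcl (sgl hPP A he h0 h1 p) = hcl (sgl hPP A he h0 h1 p') := by
  obtain ⟨P⟩ := Path.Homotopic.Quotient.eq.1 h
  refine hcl_htpy (A := A) hPP (fun z : I × ℝ => e (P (z.1, projIcc 0 1 zero_le_one z.2))) ?_ h0
    ?_ ?_ ?_ ?_
  · exact (he.comp (P.continuous.comp (continuous_fst.prodMk
      (continuous_projIcc.comp continuous_snd)))).continuousOn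
  · intro u
    show e (P (u, projIcc 0 1 zero_le_one (0 : ℝ))) = e y₀
    rw [projIcc_left]
    exact congrArg e (P.source _)
  · intro u
    show e (P (u, projIcc 0 1 zero_le_one (1 : ℝ))) ∈ A.Fix
    rw [projIcc_right]
    have := P.target u
    rw [show (P (u, ⟨1, _⟩)) = y₁ from this]
    exact h1
  · intro t
    rw [sgl_apply]
    refine sph_congr hPP (fun v hv => ?_) (sqr_S2 t)
    show e (p.extend v) = e (P (0, projIcc 0 1 zero_le_one v))
    rw [P.apply_zero]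
    rfl
  · intro t
    rw [sgl_apply]
    refine sph_congr hPP (fun v hv => ?_) (sqr_S2 t)
    show e (p'.extend v) = e (P (1, projIcc 0 1 zero_le_one v))
    rw [P.apply_one]
    rfl

theorem ext_lo {x y z : Off K} (p : Path x y) (k : Path y z) {v : ℝ} (hv : v ∈ Icc (0 : ℝ) 1) :
    (p.trans k).extend (v / 2) = p.extend v := by
  have h1 : v / 2 ∈ Icc (0 : ℝ) 1 := ⟨by linarith [hv.1], by linarith [hv.2]⟩
  rw [Path.extend_apply _ h1, Path.trans_apply, dif_pos (show ((⟨v / 2, h1⟩ : I) : ℝ) ≤ 1 / 2 by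
    show v / 2 ≤ 1 / 2
    linarith [hv.2]), Path.extend_apply _ hv]
  congr 1
  apply Subtype.ext
  show 2 * (v / 2) = v
  ring

theorem ext_hi {x y z : Off K} (p : Path x y) (k : Path y z) {v : ℝ} (hv : v ∈ Icc (0 : ℝ) 1) :
    (p.trans k).extend (1 / 2 + v / 2) = k.extend v := by
  have h1 : 1 / 2 + v / 2 ∈ Icc (0 : ℝ) 1 := ⟨by linarith [hv.1], by linarith [hv.2]⟩
  rw [Path.extend_apply _ h1, Path.trans_apply]
  by_cases h2 : ((⟨1 / 2 + v / 2, h1⟩ : I) : ℝ) ≤ 1 / 2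
  · have h3 : v = 0 := by
      have h4 : 1 / 2 + v / 2 ≤ 1 / 2 := h2
      linarith [hv.1]
    subst h3
    rw [dif_pos h2]
    have h5 : (⟨2 * ((⟨1 / 2 + 0 / 2, h1⟩ : I) : ℝ), (unitInterval.mul_pos_mem_iff zero_lt_two).2
        ⟨(⟨1 / 2 + 0 / 2, h1⟩ : I).2.1, h2⟩⟩ : I) = 1 := by
      apply Subtype.ext
      show 2 * (1 / 2 + 0 / 2 : ℝ) = 1
      norm_num
    rw [h5, p.target]
    simp
  · rw [dif_neg h2, Path.extend_apply _ hv]
    congr 1
    apply Subtype.ext
    show 2 * (1 / 2 + v / 2) - 1 = v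
    ring

/-- (1) concatenation -/
theorem sgl_mul (hPP : StPP) (hMUL : StMUL) (he : Continuous e) {y₀ y₁ y₂ : Off K}
    (h0 : e y₀ ∈ A.Fix) (h1 : e y₁ ∈ A.Fix) (h2 : e y₂ ∈ A.Fix) (p : Path y₀ y₁)
    (k : Path y₁ y₂) : ∃ x : GenLoop (Fin 2) X (e y₀),
      hcl (sgl hPP A he h0 h2 (p.trans k)) = hcl (sgl hPP A he h0 h1 p) * hcl x ∧
      Hfree x (fun t => A.sph (fun v => e (k.extend v)) (sqr t)) := by
  have hhalf : (p.trans k).extend (1 / 2) = y₁ := by
    have h := ext_lo p k (v := 1) ⟨zero_le_one, le_rfl⟩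
    rw [h]
    simp
  obtain ⟨x, hx1, hx2⟩ := hMUL X A (fun v => e ((p.trans k).extend v)) (e y₀)
    (he.comp (p.trans k).continuous_extend).continuousOn (by simp) (by simpa using h0)
    (by show e ((p.trans k).extend (1 / 2)) ∈ A.Fix; rw [hhalf]; exact h1) (by simpa using h2)
    (sgl hPP A he h0 h2 (p.trans k)) (sgl hPP A he h0 h1 p) (fun t => rfl) (fun t => by
      rw [sgl_apply]
      refine sph_congr hPP (fun v hv => ?_) (sqr_S2 t)
      show e (p.extend v) = e ((p.trans k).extend (v / 2))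
      rw [ext_lo p k hv])
  refine ⟨x, hx1, ?_⟩
  have e1 : (fun t => A.sph (fun v => e ((p.trans k).extend (1 / 2 + v / 2))) (sqr t)) =
      fun t => A.sph (fun v => e (k.extend v)) (sqr t) := by
    funext t
    refine sph_congr hPP (fun v hv => ?_) (sqr_S2 t)
    show e ((p.trans k).extend (1 / 2 + v / 2)) = e (k.extend v)
    rw [ext_hi p k hv]
  rw [← e1]
  exact hx2

/-- (2) a tail of fixed points -/
theorem sgl_tail (hPP : StPP) (he : Continuous e) {y₀ y₁ y₂ : Off K}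
    (h0 : e y₀ ∈ A.Fix) (h1 : e y₁ ∈ A.Fix) (h2 : e y₂ ∈ A.Fix) (p : Path y₀ y₁)
    (m : Path y₁ y₂) (hm : ∀ t, e (m t) ∈ A.Fix) :
    hcl (sgl hPP A he h0 h2 (p.trans m)) = hcl (sgl hPP A he h0 h1 p) := by
  refine hcl_htpy (A := A) hPP (fun z : I × ℝ => e ((p.trans m).extend ((1 - (z.1 : ℝ) / 2) * z.2)))
    ?_ h0 ?_ ?_ ?_ ?_
  · exact (he.comp ((p.trans m).continuous_extend.comp (by fun_prop))).continuousOn
  · intro u
    show e ((p.trans m).extend ((1 - (u : ℝ) / 2) * 0)) = e y₀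
    rw [mul_zero]
    simp
  · intro u
    show e ((p.trans m).extend ((1 - (u : ℝ) / 2) * 1)) ∈ A.Fix
    have hu : 1 - (u : ℝ) ∈ Icc (0 : ℝ) 1 := ⟨by linarith [u.2.2], by linarith [u.2.1]⟩
    have e1 : (1 - (u : ℝ) / 2) * 1 = 1 / 2 + (1 - (u : ℝ)) / 2 := by ring
    rw [e1, ext_hi p m hu, Path.extend_apply _ hu]
    exact hm _
  · intro t
    rw [sgl_apply]
    refine sph_congr hPP (fun v hv => ?_) (sqr_S2 t)
    show e ((p.trans m).extend v) = e ((p.trans m).extend ((1 - ((0 : I) : ℝ) / 2) * v))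
    rw [Icc.coe_zero]
    congr 2
    ring
  · intro t
    rw [sgl_apply]
    refine sph_congr hPP (fun v hv => ?_) (sqr_S2 t)
    show e (p.extend v) = e ((p.trans m).extend ((1 - ((1 : I) : ℝ) / 2) * v))
    rw [Icc.coe_one, ← ext_lo p m hv]
    congr 2
    ring

/-- (2) a path of fixed points -/
theorem sgl_fix (hPP : StPP) (he : Continuous e) {y₀ y₁ : Off K}
    (h0 : e y₀ ∈ A.Fix) (h1 : e y₁ ∈ A.Fix) (p : Path y₀ y₁) (hp : ∀ t, e (p t) ∈ A.Fix) :
    hcl (sgl hPP A he h0 h1 p) = 1 := by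
  rw [HomotopyGroup.one_def]
  refine hcl_htpy (A := A) hPP (fun z : I × ℝ => e (p.extend ((1 - (z.1 : ℝ)) * z.2)))
    ?_ h0 ?_ ?_ ?_ ?_
  · exact (he.comp (p.continuous_extend.comp (by fun_prop))).continuousOn
  · intro u
    show e (p.extend ((1 - (u : ℝ)) * 0)) = e y₀
    rw [mul_zero]
    simp
  · intro u
    show e (p.extend ((1 - (u : ℝ)) * 1)) ∈ A.Fix
    have hu : (1 - (u : ℝ)) * 1 ∈ Icc (0 : ℝ) 1 := ⟨by linarith [u.2.2], by linarith [u.2.1]⟩
    rw [Path.extend_apply _ hu]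
    exact hp _
  · intro t
    rw [sgl_apply]
    refine sph_congr hPP (fun v hv => ?_) (sqr_S2 t)
    show e (p.extend v) = e (p.extend ((1 - ((0 : I) : ℝ)) * v))
    rw [Icc.coe_zero]
    congr 2
    ring
  · intro t
    show e y₀ = A.R (lon (sqr t)) (e (p.extend ((1 - ((1 : I) : ℝ)) * lat (sqr t))))
    have e1 : (1 - ((1 : I) : ℝ)) * lat (sqr t) = 0 := by rw [Icc.coe_one]; ring
    rw [e1, Path.extend_zero]
    exact (h0 _).symm

/-- (3) the relation -/
def Rel (hPP : StPP) (A : Act X) (he : Continuous e) {y₀ : Off K} (h0 : e y₀ ∈ A.Fix) (y : Off K)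
    (g g' : Hom K y₀ y) : Prop :=
  ∀ (w w' : Path y₀ y) (y₁ : Off K) (h1 : e y₁ ∈ A.Fix) (b : Path y y₁), cl w = g → cl w' = g' →
    hcl (sgl hPP A he h0 h1 (w.trans b)) * (hcl (sgl hPP A he h0 h1 (w'.trans b)))⁻¹ ∈
      Subgroup.closure (drift (e y₀))

theorem cl_trans {x y z : Off K} {p p' : Path x y} (k : Path y z) (h : cl p = cl p') :
    cl (p.trans k) = cl (p'.trans k) := by
  show (cl p).trans (cl k) = (cl p').trans (cl k)
  rw [h]

theorem cl_assoc {x y z w : Off K} (p : Path x y) (k : Path y z) (l : Path z w) :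
    cl ((p.trans k).trans l) = cl (p.trans (k.trans l)) := by
  show ((cl p).trans (cl k)).trans (cl l) = (cl p).trans ((cl k).trans (cl l))
  rw [Path.Homotopic.Quotient.trans_assoc]

theorem relP (hPP : StPP) (he : Continuous e) {y₀ : Off K} (h0 : e y₀ ∈ A.Fix) :
    RelP K y₀ (Rel hPP A he h0) where
  refl y g := by
    intro w w' y₁ h1 b hw hw'
    rw [sgl_htpy hPP he h0 h1 (cl_trans b (hw.trans hw'.symm)), mul_inv_cancel]
    exact Subgroup.one_mem _
  symm y g g' H := by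
    intro w w' y₁ h1 b hw hw'
    have h := Subgroup.inv_mem _ (H w' w y₁ h1 b hw' hw)
    rwa [mul_inv_rev, inv_inv] at h
  trans y g g' g'' H H' := by
    intro w w'' y₁ h1 b hw hw''
    obtain ⟨w', hw'⟩ := Path.Homotopic.Quotient.mk_surjective g'
    have h := Subgroup.mul_mem _ (H w w' y₁ h1 b hw hw') (H' w' w'' y₁ h1 b hw' hw'')
    have e1 : ∀ a b c : HomotopyGroup (Fin 2) X (e y₀), a * b⁻¹ * (b * c⁻¹) = a * c⁻¹ := by
      intro a b c
      rw [mul_assoc, inv_mul_cancel_left]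
    rwa [e1] at h
  comp y y' g g' β H := by
    intro w w' y₁ h1 b hw hw'
    obtain ⟨β', hβ⟩ := Path.Homotopic.Quotient.mk_surjective β
    obtain ⟨v, hv⟩ := Path.Homotopic.Quotient.mk_surjective g
    obtain ⟨v', hv'⟩ := Path.Homotopic.Quotient.mk_surjective g'
    have h := H v v' y₁ h1 (β'.trans b) hv hv'
    have e1 : cl (w.trans b) = cl (v.trans (β'.trans b)) := by
      rw [← cl_assoc]
      refine cl_trans b ?_
      rw [hw, ← hv, ← hβ]
      rfl
    have e2 : cl (w'.trans b) = cl (v'.trans (β'.trans b)) := by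
      rw [← cl_assoc]
      refine cl_trans b ?_
      rw [hw', ← hv', ← hβ]
      rfl
    rw [sgl_htpy hPP he h0 h1 e1, sgl_htpy hPP he h0 h1 e2]
    exact h

/-- (4) the meridian -/
theorem rel_mer (hPP : StPP) (hMUL : StMUL) (he : Continuous e) {y₀ : Off K}
    (h0 : e y₀ ∈ A.Fix) {y₁ : Off K} (h1 : e y₁ ∈ A.Fix) (m : Path y₁ y₁)
    (hm : ∀ t, e (m t) ∈ A.Fix) (g : Hom K y₀ y₁) : Rel hPP A he h0 y₁ (g.trans (cl m)) g := by
  intro w w' y₂ h2 b hw hw'
  obtain ⟨v, hv⟩ := Path.Homotopic.Quotient.mk_surjective g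
  have e1 : cl (w.trans b) = cl ((v.trans m).trans b) := by
    refine cl_trans b ?_
    rw [hw, ← hv]
    rfl
  have e2 : cl (w'.trans b) = cl (v.trans b) := by
    refine cl_trans b ?_
    rw [hw', ← hv]
  rw [sgl_htpy hPP he h0 h2 e1, sgl_htpy hPP he h0 h2 e2]
  obtain ⟨x, hx1, hx2⟩ := sgl_mul (A := A) hPP hMUL he h0 h1 h2 (v.trans m) b
  obtain ⟨x', hx1', hx2'⟩ := sgl_mul (A := A) hPP hMUL he h0 h1 h2 v b
  rw [hx1, hx1', sgl_tail hPP he h0 h1 h1 v m hm]
  refine Subgroup.subset_closure ⟨x, x', _, hx2, hx2', ?_⟩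
  have e3 : ∀ a b c : HomotopyGroup (Fin 2) X (e y₀), a * b * (a * c)⁻¹ = b * c⁻¹ := by
    intro a b c
    rw [mul_comm a b, mul_inv_rev, mul_comm c⁻¹ a⁻¹, mul_assoc, mul_inv_cancel_left]
  exact e3 _ _ _

end

end ABS

open ABS in
/-- MODULE ABS. -/
theorem m_ABS (hPP : StPP) (hMUL : StMUL) : StABS := by
  intro X _ A K e V _ _ T z y₀ y p p' hK he hz hfix hp' f hf
  have h0 : e y₀ ∈ A.Fix := by
    have h := hp' 0
    rwa [p'.source] at h
  have hy : e y ∈ A.Fix := by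
    have h := hp' 1
    rwa [p'.target] at h
  have hre : ∀ t : ℝ, (z.1 + (t : ℂ) * tpi).re < T.κ := by
    intro t
    rw [Complex.add_re, Tub.tpi_re, add_zero]
    exact hz.1
  -- the meridian
  let y₁ : Off K := ⟨T.Q z, T.off z hz⟩
  have hcont : Continuous fun t : I => T.Q (z.1 + (((t : ℝ) : ℂ)) * tpi, z.2) :=
    T.contQ (by fun_prop) continuous_const (fun t => hre _) fun _ => hz.2
  let m : Path y₁ y₁ :=
    { toFun := fun t => ⟨T.Q (z.1 + (((t : ℝ) : ℂ)) * tpi, z.2), T.off _ ⟨hre _, hz.2⟩⟩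
      continuous_toFun := hcont.subtype_mk _
      source' := by
        apply Subtype.ext
        show T.Q (z.1 + (((0 : I) : ℝ) : ℂ) * tpi, z.2) = T.Q z
        simp
      target' := by
        apply Subtype.ext
        show T.Q (z.1 + (((1 : I) : ℝ) : ℂ) * tpi, z.2) = T.Q z
        rw [Icc.coe_one, Complex.ofReal_one, one_mul, T.per] }
  have hm : T.IsMer z 1 m := by
    intro t
    show T.Q (z.1 + (((t : ℝ) : ℂ)) * tpi, z.2) = _
    simp
  have hmf : ∀ t, e (m t) ∈ A.Fix := fun t => hfix t (m t) rfl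
  have h1 : e y₁ ∈ A.Fix := by
    have h := hmf 0
    rwa [m.source] at h
  have hall := vk T hK (relP (A := A) hPP he h0) hz (y₁ := y₁) rfl hm
    (rel_mer (A := A) hPP hMUL he h0 h1 m hmf) y (cl p) (cl p')
  have h := hall p p' y hy (Path.refl y) rfl rfl
  have r1 : ∀ w : Path y₀ y, cl (w.trans (Path.refl y)) = cl w := by
    intro w
    show (cl w).trans (cl (Path.refl y)) = cl w
    exact Path.Homotopic.Quotient.trans_refl _
  rw [sgl_htpy hPP he h0 hy (r1 p), sgl_htpy hPP he h0 hy (r1 p'), sgl_fix hPP he h0 hy p' hp',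
    inv_one, mul_one] at h
  have e1 : f = sgl hPP A he h0 hy p := GenLoop.ext _ _ fun t => hf t
  rw [e1]
  exact h

end Pool.Agent.Helper70.T
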